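import Pool.Agent.L5helper57.TW.Tow
import Pool.Agent.TH160.TowP.CFull

/-!
# Exponential polynomials on cubes of integers: the part with algebraic characters
-/

set_option autoImplicit false

namespace Pool.Agent.L5helper57.TW

open Pool.Agent.TH160.TowP Polynomial
open Pool.Agent.W254.Ab (QA mem_QA)
open Pool.Agent.W254.PA (Hyp)
open Pool.Agent.H301R2.SSE (Lt Lt_log)

section

variable {Ω : Type} [Field Ω] [CharZero Ω] {V : Submodule (QA Ω) Ω}

/-- all coefficients are in `V` -/
def GC (V : Submodule (QA Ω) Ω) (P : Polynomial Ω) : Prop := ∀ m, P.coeff m ∈ V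

theorem V_nat {x : Ω} (n : ℕ) (h : x ∈ V) : (n : Ω) * x ∈ V :=
  V_mul (isAlgebraic_natCast n) h

/-- the coefficients of `P (X + l)` -/
theorem taylor_sum (l : Ω) (P : Polynomial Ω) (m : ℕ) :
    (taylor l P).coeff m =
      ∑ i ∈ Finset.range (P.natDegree + 1), (((i + m).choose m : ℕ) : Ω) * P.coeff (i + m) * l ^ i := by
  rw [taylor_coeff, eval_eq_sum_range' (n := P.natDegree + 1)]
  · apply Finset.sum_congr rfl
    intro i _
    rw [hasseDeriv_coeff]
  · exact lt_of_le_of_lt (natDegree_hasseDeriv_le P m) (by omega)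

theorem taylor_mem {l : Ω} (hl : IsAlgebraic ℚ l) (P : Polynomial Ω) (m : ℕ)
    (h : ∀ i, 1 ≤ i → P.coeff (i + m) ∈ V) :
    ∃ w ∈ V, (taylor l P).coeff m = P.coeff m + w := by
  rw [taylor_sum, Finset.sum_range_succ']
  refine ⟨∑ k ∈ Finset.range P.natDegree,
      (((k + 1 + m).choose m : ℕ) : Ω) * P.coeff (k + 1 + m) * l ^ (k + 1), ?_, ?_⟩
  · refine V.sum_mem fun k _ => ?_
    have h1 := V_mul (hl.pow (k + 1)) (V_nat ((k + 1 + m).choose m) (h (k + 1) (by omega)))
    rwa [mul_comm] at h1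
  · simp
    ring

theorem taylor_mem2 {l : Ω} (hl : IsAlgebraic ℚ l) (P : Polynomial Ω) (m : ℕ)
    (h : ∀ i, 2 ≤ i → P.coeff (i + m) ∈ V) :
    ∃ w ∈ V, (taylor l P).coeff m - P.coeff m = ((m + 1 : ℕ) : Ω) * l * P.coeff (m + 1) + w := by
  rcases Nat.eq_zero_or_pos P.natDegree with h0 | h0
  · refine ⟨0, V.zero_mem, ?_⟩
    rw [taylor_sum, h0]
    have h1 : P.coeff (m + 1) = 0 := coeff_eq_zero_of_natDegree_lt (by omega)
    rw [h1]
    simp
  · obtain ⟨d, hd⟩ : ∃ d, P.natDegree = d + 1 := ⟨P.natDegree - 1, by omega⟩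
    rw [taylor_sum, hd, Finset.sum_range_succ', Finset.sum_range_succ']
    refine ⟨∑ k ∈ Finset.range d,
      (((k + 1 + 1 + m).choose m : ℕ) : Ω) * P.coeff (k + 1 + 1 + m) * l ^ (k + 1 + 1), ?_, ?_⟩
    · refine V.sum_mem fun k _ => ?_
      have h1 := V_mul (hl.pow (k + 1 + 1)) (V_nat ((k + 1 + 1 + m).choose m)
        (h (k + 1 + 1) (by omega)))
      rwa [mul_comm] at h1
    · have h2 : (0 + 1 + m).choose m = m + 1 := by
        rw [show 0 + 1 + m = m + 1 by ring]
        exact Nat.choose_succ_self_right m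
      rw [h2, show 0 + 1 + m = m + 1 by ring]
      simp
      ring

/-- dividing by `ρ - ρ'` -/
theorem gc_kop {ρ ρ' l : Ω} {P : Polynomial Ω} (hρ : IsAlgebraic ℚ ρ) (hρ' : IsAlgebraic ℚ ρ')
    (hne : ρ ≠ ρ') (hl : IsAlgebraic ℚ l) (h : GC V (kop ρ ρ' l P)) : GC V P := by
  have key : ∀ j m, P.natDegree < m + j → P.coeff m ∈ V := by
    intro j
    induction j with
    | zero =>
      intro m hm
      rw [coeff_eq_zero_of_natDegree_lt (by omega)]
      exact V.zero_mem
    | succ j ih =>
      intro m hm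
      obtain ⟨w, hw, hw2⟩ := taylor_mem hl P m (fun i hi => ih (i + m) (by omega))
      have h1 := h m
      rw [kop_coeff, hw2] at h1
      have h2 : (ρ - ρ') * P.coeff m = (ρ * (P.coeff m + w) - ρ' * P.coeff m) - ρ * w := by ring
      apply mul_mem_iff (hρ.sub hρ') (sub_ne_zero.mpr hne)
      rw [h2]
      exact V.sub_mem h1 (V_mul hρ hw)
  intro m
  exact key (P.natDegree + 1) m (by omega)

/-- differences -/
theorem gc_diff {l : Ω} {P : Polynomial Ω} (hl : IsAlgebraic ℚ l) (hl0 : l ≠ 0)
    (h : GC V (kop 1 1 l P)) : ∀ m, 1 ≤ m → P.coeff m ∈ V := by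
  have key : ∀ j m, P.natDegree < m + 1 + j → P.coeff (m + 1) ∈ V := by
    intro j
    induction j with
    | zero =>
      intro m hm
      rw [coeff_eq_zero_of_natDegree_lt (by omega)]
      exact V.zero_mem
    | succ j ih =>
      intro m hm
      obtain ⟨w, hw, hw2⟩ := taylor_mem2 hl P m (fun i hi => by
        have := ih (i + m - 1) (by omega)
        rwa [show i + m - 1 + 1 = i + m by omega] at this)
      have h1 := h m
      rw [kop_coeff, one_mul, one_mul, hw2] at h1
      have h2 := V.sub_mem h1 hw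
      rw [add_sub_cancel_right] at h2
      refine mul_mem_iff ((isAlgebraic_natCast (m + 1)).mul hl) (mul_ne_zero ?_ hl0) h2
      exact_mod_cast Nat.succ_ne_zero m
  intro m hm
  have := key (P.natDegree + 1) (m - 1) (by omega)
  rwa [show m - 1 + 1 = m by omega] at this

theorem eval_mem {P : Polynomial Ω} (h : GC V P) {y : Ω} (hy : IsAlgebraic ℚ y) : P.eval y ∈ V := by
  rw [eval_eq_sum_range]
  refine V.sum_mem fun i _ => ?_
  rw [mul_comm]
  exact V_mul (hy.pow i) (h i)

theorem const_mem {P : Polynomial Ω} (h : ∀ m, 1 ≤ m → P.coeff m ∈ V) {y : Ω}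
    (hy : IsAlgebraic ℚ y) (hP : P.eval y ∈ V) : P.coeff 0 ∈ V := by
  rw [eval_eq_sum_range, Finset.sum_range_succ'] at hP
  have h1 : ∑ k ∈ Finset.range P.natDegree, P.coeff (k + 1) * y ^ (k + 1) ∈ V := by
    refine V.sum_mem fun i _ => ?_
    rw [mul_comm]
    exact V_mul (hy.pow _) (h _ (by omega))
  have h2 := V.sub_mem hP h1
  rw [add_sub_cancel_left] at h2
  simpa using h2

/-- one polynomial on a cube -/
theorem cube_one {ι : Type} [DecidableEq ι] (l : ι → Ω) (hl : ∀ i, IsAlgebraic ℚ (l i))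
    (D : ℕ) : ∀ (J : Finset ι) (P : Polynomial Ω) (Y0 : Ω), (∀ i ∈ J, l i ≠ 0) → Z D P →
    D ≤ J.card → IsAlgebraic ℚ Y0 → (∀ T ⊆ J, P.eval (Y0 + ∑ i ∈ T, l i) ∈ V) → GC V P := by
  induction D with
  | zero =>
    intro J P Y0 _ hP _ _ _ m
    rw [hP m (Nat.zero_le _)]
    exact V.zero_mem
  | succ D ih =>
    intro J P Y0 hl0 hP hJ hY h
    obtain ⟨r, hr⟩ : J.Nonempty := Finset.card_pos.mp (by omega)
    have h1 := ih (J.erase r) (kop 1 1 (l r) P) Y0
      (fun i hi => hl0 i (Finset.mem_of_mem_erase hi)) (kop_Z' hP _ _)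
      (by rw [Finset.card_erase_of_mem hr]; omega) hY (by
        intro T hT
        have hrT : r ∉ T := fun hh => (Finset.mem_erase.mp (hT hh)).1 rfl
        rw [kop_eval, one_mul, one_mul]
        refine V.sub_mem ?_ (h T (fun x hx => Finset.mem_of_mem_erase (hT hx)))
        have h2 := h (insert r T) (by
          intro x hx
          rcases Finset.mem_insert.mp hx with rfl | hx
          · exact hr
          · exact Finset.mem_of_mem_erase (hT hx))
        rw [Finset.sum_insert hrT] at h2
        convert h2 using 2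
        ring)
    have h2 := gc_diff (hl r) (hl0 r hr) h1
    intro m
    rcases Nat.eq_zero_or_pos m with h0 | h0
    · subst h0
      have h3 := h ∅ (Finset.empty_subset J)
      rw [Finset.sum_empty, add_zero] at h3
      exact const_mem h2 hY h3
    · exact h2 m h0

/-- several polynomials with algebraic characters -/
theorem alg_part {ι κ : Type} [DecidableEq ι] [Fintype κ] [DecidableEq κ] (l : ι → Ω)
    (hl : ∀ i, IsAlgebraic ℚ (l i)) (Ψ : κ → Ω) (ρ : κ → ι → Ω) (Y0 : Ω) (j0 : κ) (D : ℕ)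
    (hΨ : IsAlgebraic ℚ (Ψ j0)) (hΨ0 : Ψ j0 ≠ 0) (hY : IsAlgebraic ℚ Y0) (n : ℕ) :
    ∀ (J : Finset ι) (d : κ → ℕ) (P : κ → Polynomial Ω),
    ∑ j ∈ Finset.univ.erase j0, d j = n → (∀ j, j ≠ j0 → Z (d j) (P j)) → Z D (P j0) →
    D + n ≤ J.card → (∀ i ∈ J, l i ≠ 0) →
    (∀ j, ∀ i ∈ J, IsAlgebraic ℚ (ρ j i)) → (∀ i ∈ J, ρ j0 i ≠ 0) →
    (∀ j, j ≠ j0 → ∀ i ∈ J, ρ j0 i ≠ ρ j i) →
    (∀ T ⊆ J, E Ψ ρ l Y0 P T ∈ V) → GC V (P j0) := by
  classical
  induction n with
  | zero =>
    intro J d P hd hP hPD hJ hl0 hρ hρ0 hρne h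
    refine cube_one l hl D J (P j0) Y0 hl0 hPD (by omega) hY (fun T hT => ?_)
    have h1 := h T hT
    have hE : E Ψ ρ l Y0 P T =
        (Ψ j0 * ∏ i ∈ T, ρ j0 i) * (P j0).eval (Y0 + ∑ i ∈ T, l i) := by
      unfold E
      have hz : ∑ j ∈ Finset.univ.erase j0,
          Ψ j * (∏ i ∈ T, ρ j i) * (P j).eval (Y0 + ∑ i ∈ T, l i) = 0 := by
        apply Finset.sum_eq_zero
        intro j hj
        have hj' := Finset.ne_of_mem_erase hj
        have hdj : d j = 0 := (Finset.sum_eq_zero_iff.mp hd) j hj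
        have : P j = 0 := Z_zero (by rw [← hdj]; exact hP j hj')
        rw [this, eval_zero, mul_zero]
      rw [← Finset.add_sum_erase _ _ (Finset.mem_univ j0), hz, add_zero]
    rw [hE] at h1
    refine mul_mem_iff ?_ ?_ h1
    · refine hΨ.mul ?_
      have : ∀ S : Finset ι, S ⊆ J → IsAlgebraic ℚ (∏ i ∈ S, ρ j0 i) := by
        intro S
        induction S using Finset.induction_on with
        | empty => intro _; rw [Finset.prod_empty]; exact isAlgebraic_one
        | insert a S ha ihS =>
          intro hS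
          rw [Finset.prod_insert ha]
          exact (hρ j0 a (hS (Finset.mem_insert_self a S))).mul
            (ihS (fun x hx => hS (Finset.mem_insert_of_mem hx)))
      exact this T hT
    · exact mul_ne_zero hΨ0 (Finset.prod_ne_zero_iff.mpr fun i hi => hρ0 i (hT hi))
  | succ n ih =>
    intro J d P hd hP hPD hJ hl0 hρ hρ0 hρne h
    obtain ⟨j1, hj1, hdj1⟩ : ∃ j1, j1 ≠ j0 ∧ d j1 ≠ 0 := by
      by_contra hcon
      push Not at hcon
      rw [Finset.sum_eq_zero (fun j hj => hcon j (Finset.ne_of_mem_erase hj))] at hd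
      omega
    obtain ⟨i, hi⟩ : J.Nonempty := Finset.card_pos.mp (by omega)
    have key := ih (J.erase i) (Function.update d j1 (d j1 - 1))
      (fun j => kop (ρ j i) (ρ j1 i) (l i) (P j)) ?_ ?_ ?_ ?_
      (fun k hk => hl0 k (Finset.mem_of_mem_erase hk))
      (fun j k hk => hρ j k (Finset.mem_of_mem_erase hk))
      (fun k hk => hρ0 k (Finset.mem_of_mem_erase hk))
      (fun j hj k hk => hρne j hj k (Finset.mem_of_mem_erase hk)) ?_
    · exact gc_kop (hρ j0 i hi) (hρ j1 i hi) (hρne j1 hj1 i hi) (hl i) key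
    · have hm : j1 ∈ Finset.univ.erase j0 := Finset.mem_erase.mpr ⟨hj1, Finset.mem_univ _⟩
      rw [Finset.sum_update_of_mem hm, Finset.sdiff_singleton_eq_erase]
      have h2 := Finset.add_sum_erase (Finset.univ.erase j0) d hm
      omega
    · intro j hj
      by_cases hjj : j = j1
      · subst hjj
        rw [Function.update_self]
        refine kop_Z' ?_ _ _
        rw [Nat.sub_add_cancel (Nat.pos_of_ne_zero hdj1)]
        exact hP j hj
      · rw [Function.update_of_ne hjj]
        exact kop_Z (hP j hj) _ _ _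
    · exact kop_Z hPD _ _ _
    · rw [Finset.card_erase_of_mem hi]
      omega
    · intro T hT
      have hiT : i ∉ T := fun hh => (Finset.mem_erase.mp (hT hh)).1 rfl
      have h1 := h (insert i T) (by
        intro x hx
        rcases Finset.mem_insert.mp hx with rfl | hx
        · exact hi
        · exact Finset.mem_of_mem_erase (hT hx))
      have h2 := h T (fun x hx => Finset.mem_of_mem_erase (hT hx))
      have h3 := V.sub_mem h1 (V_mul (hρ j1 i hi) h2)
      rw [← E_kop Ψ ρ l Y0 P T i hiT (ρ j1 i)]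
      exact h3

end

/-! ### Hilbert cubes -/

theorem cube_step (S : Finset ℤ) (A : ℤ) (N : ℕ) (hN : 1 ≤ N) (hS : S ⊆ Finset.Ico A (A + N))
    (h2 : 2 ≤ S.card) : ∃ r : ℤ, 1 ≤ r ∧
      S.card * S.card ≤ 4 * N * (S.filter fun x => x + r ∈ S).card := by
  classical
  by_contra hcon
  push Not at hcon
  set L : Finset (ℤ × ℤ) := (S ×ˢ S).filter fun x => x.1 < x.2 with hL
  have hLc : 2 * L.card + S.card = S.card * S.card := by
    have e1 : ((S ×ˢ S).filter fun x => x.2 < x.1).card = L.card := by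
      rw [hL]
      apply Finset.card_bij (fun x _ => (x.2, x.1))
      · intro x hx
        rw [Finset.mem_filter, Finset.mem_product] at hx ⊢
        exact ⟨⟨hx.1.2, hx.1.1⟩, hx.2⟩
      · intro x _ y _ hxy
        rw [Prod.mk.injEq] at hxy
        ext
        · exact hxy.2
        · exact hxy.1
      · intro y hy
        rw [Finset.mem_filter, Finset.mem_product] at hy
        refine ⟨(y.2, y.1), ?_, rfl⟩
        rw [Finset.mem_filter, Finset.mem_product]
        exact ⟨⟨hy.1.2, hy.1.1⟩, hy.2⟩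
    have e2 : ((S ×ˢ S).filter fun x => x.1 = x.2).card = S.card := by
      apply Finset.card_bij (fun x _ => x.1)
      · intro x hx
        rw [Finset.mem_filter, Finset.mem_product] at hx
        exact hx.1.1
      · intro x hx y hy hxy
        rw [Finset.mem_filter] at hx hy
        ext
        · exact hxy
        · rw [← hx.2, ← hy.2]; exact hxy
      · intro y hy
        exact ⟨(y, y), by rw [Finset.mem_filter, Finset.mem_product]; exact ⟨⟨hy, hy⟩, rfl⟩, rfl⟩
    have e3 : (S ×ˢ S).card = ((S ×ˢ S).filter fun x => x.1 < x.2).card +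
        (((S ×ˢ S).filter fun x => x.1 = x.2).card + ((S ×ˢ S).filter fun x => x.2 < x.1).card) := by
      rw [← Finset.card_union_of_disjoint, ← Finset.card_union_of_disjoint]
      · congr 1
        ext x
        simp only [Finset.mem_union, Finset.mem_filter]
        constructor
        · intro hx
          rcases lt_trichotomy x.1 x.2 with h | h | h
          · exact Or.inl ⟨hx, h⟩
          · exact Or.inr (Or.inl ⟨hx, h⟩)
          · exact Or.inr (Or.inr ⟨hx, h⟩)
        · rintro (h | h | h)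
          · exact h.1
          · exact h.1
          · exact h.1
      · rw [Finset.disjoint_left]
        intro x hx
        simp only [Finset.mem_union, Finset.mem_filter] at hx ⊢
        rintro (h | h)
        · exact absurd h.2 (ne_of_lt hx.2)
        · exact absurd h.2 (not_lt.mpr hx.2.le)
      · rw [Finset.disjoint_left]
        intro x hx
        simp only [Finset.mem_filter] at hx ⊢
        rintro h
        exact absurd hx.2.symm (ne_of_lt h.2)
    rw [Finset.card_product, e1, e2] at e3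
    rw [e3, ← hL]
    ring
  have hfib : L.card ≤ ∑ r ∈ Finset.Icc (1 : ℤ) N, (S.filter fun x => x + r ∈ S).card := by
    have h1 : L.card = ∑ r ∈ Finset.Icc (1 : ℤ) N, (L.filter fun x => x.2 - x.1 = r).card := by
      apply Finset.card_eq_sum_card_fiberwise
      intro x hx
      rw [Finset.mem_coe, hL, Finset.mem_filter, Finset.mem_product] at hx
      have a1 := Finset.mem_Ico.mp (hS hx.1.1)
      have a2 := Finset.mem_Ico.mp (hS hx.1.2)
      rw [Finset.mem_coe, Finset.mem_Icc]
      have := hx.2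
      change 1 ≤ x.2 - x.1 ∧ x.2 - x.1 ≤ N
      constructor <;> omega
    rw [h1]
    apply Finset.sum_le_sum
    intro r _
    apply Finset.card_le_card_of_injOn (fun x => x.1)
    · intro x hx
      rw [Finset.mem_coe, hL, Finset.mem_filter, Finset.mem_filter, Finset.mem_product] at hx
      rw [Finset.mem_coe, Finset.mem_filter]
      refine ⟨hx.1.1.1, ?_⟩
      have : x.1 + r = x.2 := by rw [← hx.2]; ring
      rw [this]
      exact hx.1.1.2
    · intro x hx y hy hxy
      rw [Finset.mem_coe, hL, Finset.mem_filter] at hx hy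
      have e1 : x.2 = x.1 + r := by rw [← hx.2]; ring
      have e2 : y.2 = y.1 + r := by rw [← hy.2]; ring
      have hxy' : x.1 = y.1 := hxy
      ext
      · exact hxy'
      · rw [e1, e2, hxy']
  have hbd : 4 * N * L.card < N * (S.card * S.card) := by
    have h1 : 4 * N * L.card ≤
        ∑ r ∈ Finset.Icc (1 : ℤ) N, 4 * N * (S.filter fun x => x + r ∈ S).card := by
      rw [← Finset.mul_sum]
      exact Nat.mul_le_mul_left _ hfib
    refine lt_of_le_of_lt h1 ?_
    have h3 : (Finset.Icc (1 : ℤ) N).Nonempty := by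
      rw [Finset.nonempty_Icc]
      exact_mod_cast hN
    refine lt_of_lt_of_le (Finset.sum_lt_sum_of_nonempty h3 (fun r hr =>
      hcon r (Finset.mem_Icc.mp hr).1)) ?_
    rw [Finset.sum_const, Int.card_Icc, smul_eq_mul]
    apply le_of_eq
    congr 1
    omega
  have h4 : 4 * L.card < S.card * S.card := by
    have h5 : N * (4 * L.card) < N * (S.card * S.card) := by
      calc N * (4 * L.card) = 4 * N * L.card := by ring
        _ < _ := hbd
    exact Nat.lt_of_mul_lt_mul_left h5
  have h6 : 2 * S.card ≤ S.card * S.card := Nat.mul_le_mul_right _ h2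
  omega

theorem hilbert (M : ℕ) : ∀ (S : Finset ℤ) (A : ℤ) (N : ℕ), 1 ≤ N → S ⊆ Finset.Ico A (A + N) →
    (4 * N) ^ (2 ^ M - 1) < S.card ^ (2 ^ M) →
    ∃ (a : ℤ) (δ : Fin M → ℤ), (∀ i, 1 ≤ δ i) ∧ ∀ T : Finset (Fin M), a + ∑ i ∈ T, δ i ∈ S := by
  classical
  induction M with
  | zero =>
    intro S A N hN _ hc
    simp only [pow_zero, tsub_self, pow_one] at hc
    obtain ⟨a, ha⟩ := Finset.card_pos.mp (by omega : 0 < S.card)
    refine ⟨a, Fin.elim0, fun i => i.elim0, fun T => ?_⟩
    have : T = ∅ := by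
      ext i
      exact i.elim0
    rw [this, Finset.sum_empty, add_zero]
    exact ha
  | succ M ih =>
    intro S A N hN hS hc
    have hp : 1 ≤ 2 ^ M := Nat.one_le_two_pow
    have hle : S.card ≤ 4 * N := by
      have := Finset.card_le_card hS
      rw [Int.card_Ico] at this
      omega
    have h2 : 2 ≤ S.card := by
      by_contra hcon
      push Not at hcon
      have h3 : S.card ^ 2 ^ (M + 1) ≤ 1 := Nat.pow_le_one_iff (by positivity) |>.mpr (by omega)
      have h4 : 1 ≤ (4 * N) ^ (2 ^ (M + 1) - 1) := Nat.one_le_pow _ _ (by omega)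
      omega
    obtain ⟨r, hr, hr2⟩ := cube_step S A N hN hS h2
    set S' := S.filter fun x => x + r ∈ S with hS'
    have hlt : (4 * N) ^ (2 ^ M - 1) < S'.card ^ (2 ^ M) := by
      have h3 : (S.card * S.card) ^ 2 ^ M ≤ (4 * N * S'.card) ^ 2 ^ M := Nat.pow_le_pow_left hr2 _
      have h4 : (S.card * S.card) ^ 2 ^ M = S.card ^ 2 ^ (M + 1) := by
        rw [← pow_two, ← pow_mul, pow_succ 2 M, mul_comm]
      rw [h4, mul_pow] at h3
      have h5 : (4 * N) ^ 2 ^ M * (4 * N) ^ (2 ^ M - 1) < (4 * N) ^ 2 ^ M * S'.card ^ 2 ^ M := by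
        refine lt_of_lt_of_le ?_ h3
        rw [← pow_add]
        have : 2 ^ M + (2 ^ M - 1) = 2 ^ (M + 1) - 1 := by rw [pow_succ]; omega
        rw [this]
        exact hc
      exact Nat.lt_of_mul_lt_mul_left h5
    obtain ⟨a, δ, hδ, hcube⟩ := ih S' A N hN ((Finset.filter_subset _ _).trans hS) hlt
    refine ⟨a, Fin.cons r δ, ?_, ?_⟩
    · intro i
      refine Fin.cases ?_ ?_ i
      · exact hr
      · intro j
        exact hδ j
    · intro T
      set T' : Finset (Fin M) := Finset.univ.filter fun i => Fin.succ i ∈ T with hT'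
      have h3 := hcube T'
      rw [hS', Finset.mem_filter] at h3
      have hsum : ∑ i ∈ T, (Fin.cons r δ : Fin (M + 1) → ℤ) i =
          (if (0 : Fin (M + 1)) ∈ T then r else 0) + ∑ i ∈ T', δ i := by
        have e1 : ∑ i ∈ T, (Fin.cons r δ : Fin (M + 1) → ℤ) i =
            ∑ i, if i ∈ T then (Fin.cons r δ : Fin (M + 1) → ℤ) i else 0 := by
          rw [← Finset.sum_filter]
          congr 1
          ext i
          simp
        rw [e1, Fin.sum_univ_succ, hT', Finset.sum_filter]
        simp only [Fin.cons_zero, Fin.cons_succ]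
      rw [hsum]
      split_ifs with h0
      · have := h3.2
        rwa [show a + ∑ i ∈ T', δ i + r = a + (r + ∑ i ∈ T', δ i) by ring] at this
      · rw [zero_add]
        exact h3.1

end Pool.Agent.L5helper57.TW
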