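import Pool.Agent.L5helper57.TW.Coe

/-!
# Exponential polynomials: all or almost no values are linear forms
-/

set_option autoImplicit false

namespace Pool.Agent.L5helper57.TW

open Pool.Agent.TH160.TowP Polynomial
open Pool.Agent.W254.Ab (QA mem_QA)
open Pool.Agent.W254.PA (Hyp)
open Pool.Agent.H301R2.SSE (Lt Lt_log)

/-- `F(k) = ∑ e ^ {λ β_i k} P_i(k)` -/
noncomputable def EP {m : ℕ} (l : ℂ) (β : Fin m → ℂ) (P : Fin m → ℂ[X]) (k : ℤ) : ℂ :=
  ∑ i, Complex.exp (l * (β i * k)) * (P i).eval (k : ℂ)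

/-- the trivial case -/
def Triv {m : ℕ} (β : Fin m → ℂ) (P : Fin m → ℂ[X]) : Prop :=
  ∀ i, (¬ (∃ r : ℚ, β i = r) → P i = 0) ∧ ((∃ r : ℚ, β i = r) → ∀ j, (P i).coeff j ∈ Lt)

theorem exp_ne_one {l c : ℂ} (hexp : IsAlgebraic ℚ (Complex.exp l))
    (hru : ∀ r : ℕ, 0 < r → Complex.exp l ^ r ≠ 1) (hc : IsAlgebraic ℚ c) (hc0 : c ≠ 0) :
    Complex.exp (l * c) ≠ 1 := by
  intro h
  have hl0 : l ≠ 0 := by
    intro h0
    apply hru 1 one_pos
    rw [h0, Complex.exp_zero, one_pow]
  by_cases hr : ∃ r : ℚ, c = r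
  · obtain ⟨r, rfl⟩ := hr
    have hr0 : r ≠ 0 := by exact_mod_cast hc0
    have h1 : Complex.exp l ^ r.num = 1 := by
      have h2 : Complex.exp (l * r) ^ r.den = Complex.exp l ^ r.num := by
        rw [← Complex.exp_nat_mul, ← Complex.exp_int_mul]
        congr 1
        have h2 : (r : ℂ) = (r.num : ℂ) / (r.den : ℂ) := Rat.cast_def r
        have h3 : (r.den : ℂ) ≠ 0 := by exact_mod_cast r.den_nz
        rw [h2]
        field_simp
      rw [← h2, h, one_pow]
    have hnum : r.num ≠ 0 := Rat.num_ne_zero.mpr hr0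
    have h4 : Complex.exp l ^ r.num.natAbs = 1 := by
      rcases Int.natAbs_eq r.num with h5 | h5
      · rw [h5, zpow_natCast] at h1
        exact h1
      · rw [h5, zpow_neg, zpow_natCast, inv_eq_one] at h1
        exact h1
    exact hru _ (Int.natAbs_pos.mpr hnum) h4
  · push Not at hr
    have := gs_cx hl0 hexp hc hr
    apply this
    rw [h]
    exact isAlgebraic_one

theorem alg_int (k : ℤ) : IsAlgebraic ℚ (k : ℂ) := isAlgebraic_intCast k

/-- the trivial case gives linear forms -/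
theorem triv_mem {m : ℕ} {l : ℂ} (hexp : IsAlgebraic ℚ (Complex.exp l)) {β : Fin m → ℂ}
    {P : Fin m → ℂ[X]} (h : Triv β P) (k : ℤ) : EP l β P k ∈ Lt := by
  refine Submodule.sum_mem _ fun i _ => ?_
  by_cases hr : ∃ r : ℚ, β i = r
  · have h1 := (h i).2 hr
    obtain ⟨r, hr⟩ := hr
    refine V_mul ?_ (eval_mem h1 (alg_int k))
    have h2 := rat_cx hexp (r * k)
    rw [hr]
    push_cast at h2
    exact h2
  · rw [(h i).1 hr, eval_zero, mul_zero]
    exact Submodule.zero_mem _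

/-- number of directions which suffices -/
def MM (m D : ℕ) : ℕ := NN m D + m * D + D

/-- if all values on a cube of dimension `MM m D` are linear forms we are in the trivial case -/
theorem cube_triv {m D : ℕ} {l : ℂ} (hexp : IsAlgebraic ℚ (Complex.exp l))
    (hru : ∀ r : ℕ, 0 < r → Complex.exp l ^ r ≠ 1) {β : Fin m → ℂ} (hβ : ∀ i, IsAlgebraic ℚ (β i))
    (hinj : Function.Injective β) {P : Fin m → ℂ[X]} (hP : ∀ i, Z D (P i)) (a : ℤ)
    (δ : Fin (MM m D) → ℤ) (hδ : ∀ i, δ i ≠ 0)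
    (h : ∀ T : Finset (Fin (MM m D)), EP l β P (a + ∑ i ∈ T, δ i) ∈ Lt) : Triv β P := by
  classical
  have hl0 : l ≠ 0 := by
    intro h0
    apply hru 1 one_pos
    rw [h0, Complex.exp_zero, one_pow]
  set al : Fin m → Prop := fun i => ∃ r : ℚ, β i = r with hal
  set t : Fin m → Fin (MM m D) → ℂ := fun k i => Complex.exp (l * (β k * δ i)) with ht
  set L : Fin (MM m D) → ℂ := fun i => (δ i : ℂ) with hL
  set Y0 : ℂ := (a : ℂ) with hY0
  set Ψ : Fin m → ℂ := fun k => Complex.exp (l * (β k * a)) with hΨ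
  have hδ0 : ∀ i, (δ i : ℂ) ≠ 0 := fun i => by exact_mod_cast hδ i
  have htr : ∀ k, ¬ al k → ∀ i, Transcendental ℚ (t k i) := by
    intro k hk i
    refine gs_cx hl0 hexp ((hβ k).mul (alg_int _)) ?_
    intro r hr
    apply hk
    refine ⟨r / δ i, ?_⟩
    push_cast
    rw [← hr]
    field_simp [hδ0 i]
  have hta : ∀ k, al k → ∀ i, IsAlgebraic ℚ (t k i) := by
    rintro k ⟨r, hr⟩ i
    have h2 := rat_cx hexp (r * δ i)
    rw [ht]
    simp only
    rw [hr]
    push_cast at h2
    exact h2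
  have htne : ∀ k k', k ≠ k' → ∀ i, t k i ≠ t k' i := by
    intro k k' hk i heq
    have h1 : Complex.exp (l * ((β k - β k') * δ i)) = 1 := by
      have : l * ((β k - β k') * δ i) = l * (β k * δ i) - l * (β k' * δ i) := by ring
      rw [this, Complex.exp_sub]
      have h2 : Complex.exp (l * (β k * δ i)) = Complex.exp (l * (β k' * δ i)) := heq
      rw [h2, div_self (Complex.exp_ne_zero _)]
    refine exp_ne_one hexp hru (((hβ k).sub (hβ k')).mul (alg_int _)) ?_ h1
    refine mul_ne_zero (sub_ne_zero.mpr fun hh => hk (hinj hh)) (hδ0 i)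
  have hval0 : ∀ T : Finset (Fin (MM m D)), EP l β P (a + ∑ i ∈ T, δ i) =
      ∑ k, Ψ k * (∏ i ∈ T, t k i) * (P k).eval (Y0 + ∑ i ∈ T, L i) := by
    intro T
    unfold EP
    apply Finset.sum_congr rfl
    intro k _
    have e1 : Complex.exp (l * (β k * ((a + ∑ i ∈ T, δ i : ℤ) : ℂ))) =
        Ψ k * ∏ i ∈ T, t k i := by
      rw [hΨ, ht]
      simp only
      rw [← Complex.exp_sum, ← Complex.exp_add]
      congr 1
      push_cast
      rw [← Finset.mul_sum, ← Finset.mul_sum]
      ring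
    have e2 : ((a + ∑ i ∈ T, δ i : ℤ) : ℂ) = Y0 + ∑ i ∈ T, L i := by
      rw [hY0, hL]
      push_cast
      rfl
    rw [e1, e2]
  have hval : ∀ T ⊆ (Finset.univ : Finset (Fin (MM m D))),
      E (fun k : {k // ¬ al k} => Ψ k) (fun (k : {k // ¬ al k}) i => t k i) L Y0
        (fun k => P k) T +
      E (fun k : {k // al k} => Ψ k) (fun (k : {k // al k}) i => t k i) L Y0
        (fun k => P k) T ∈ Lt := by
    intro T _
    have h1 := h T
    rw [hval0, ← Fintype.sum_subtype_add_sum_subtype al] at h1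
    unfold E
    rw [add_comm]
    exact h1
  have hcard : ∀ (Q : Fin m → Prop) [Fintype {k // Q k}], Fintype.card {k // Q k} ≤ m := by
    intro Q _
    have := Fintype.card_le_of_injective (Subtype.val : {k // Q k} → Fin m) Subtype.val_injective
    rwa [Fintype.card_fin] at this
  have hu : (Finset.univ : Finset (Fin (MM m D))).card = MM m D := by
    rw [Finset.card_univ, Fintype.card_fin]
  have hmain : ∀ i, ¬ al i → P i = 0 := by
    intro i hi
    refine part1G hyp_lt (fun (k : {k // ¬ al k}) i => t k i) L (fun k : {k // ¬ al k} => Ψ k) Y0 D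
      (fun k : {k // al k} => Ψ k) (fun (k : {k // al k}) i => t k i)
      (∑ _j : {k // al k}, D) Finset.univ (fun _ => D) (fun k => P k) (fun k => P k) rfl
      (fun j => hP j) (fun j => hP j) ?_ (fun k r _ => htr k k.2 r)
      (fun k k' hk r _ => htne k k' (fun hh => hk (Subtype.ext hh)) r) (fun r _ => hδ0 r)
      (fun k => Complex.exp_ne_zero _) (fun k i _ => hta k k.2 i) hval ⟨i, hi⟩
    have h1 : ∑ _j : {k // al k}, D ≤ m * D := by
      rw [Finset.sum_const, smul_eq_mul, Finset.card_univ]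
      exact Nat.mul_le_mul_right _ (hcard al)
    rw [hu]
    refine le_trans (Nat.add_le_add (NN_mono (hcard _)) h1) ?_
    unfold MM
    omega
  intro j0
  refine ⟨hmain j0, fun hj0 => ?_⟩
  refine alg_part L (fun i => alg_int _) (fun k : {k // al k} => Ψ k)
    (fun (k : {k // al k}) i => t k i) Y0 ⟨j0, hj0⟩ D ?_ (Complex.exp_ne_zero _) (alg_int a)
    (∑ j ∈ (Finset.univ : Finset {k // al k}).erase ⟨j0, hj0⟩, D) Finset.univ
    (fun _ => D) (fun k => P k) rfl (fun j _ => hP j) (hP j0) ?_ (fun i _ => hδ0 i)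
    (fun k i _ => hta k k.2 i) (fun i _ => Complex.exp_ne_zero _) ?_ ?_
  · obtain ⟨r, hr⟩ := hj0
    have h2 := rat_cx hexp (r * a)
    rw [hΨ]
    simp only
    rw [hr]
    push_cast at h2
    exact h2
  · have h1 : ∑ j ∈ (Finset.univ : Finset {k // al k}).erase ⟨j0, hj0⟩, D ≤ m * D := by
      rw [Finset.sum_const, smul_eq_mul]
      apply Nat.mul_le_mul_right
      refine (Finset.card_le_card (Finset.erase_subset _ _)).trans ?_
      rw [Finset.card_univ]
      exact hcard al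
    rw [hu]
    unfold MM
    omega
  · intro j hj i _
    exact htne j0 j (fun hh => hj (Subtype.ext hh.symm)) i
  · intro T hT
    have h1 := hval T hT
    have h2 : E (fun k : {k // ¬ al k} => Ψ k) (fun (k : {k // ¬ al k}) i => t k i) L Y0
        (fun k => P k) T = 0 := by
      unfold E
      apply Finset.sum_eq_zero
      intro k _
      simp only [hmain k k.2, eval_zero, mul_zero]
    rw [h2, zero_add] at h1
    exact h1

theorem root_bound (s N M : ℕ) (h1 : s ^ (2 ^ M) ≤ (4 * N) ^ (2 ^ M - 1)) :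
    (s : ℝ) ≤ (4 * N : ℝ) ^ (1 - 1 / 2 ^ M : ℝ) := by
  have h2 : ((s : ℝ)) ^ (2 ^ M) ≤ (4 * N : ℝ) ^ (2 ^ M - 1) := by exact_mod_cast h1
  have hN0 : (0 : ℝ) ≤ 4 * N := by positivity
  have hM0 : (0 : ℝ) < 2 ^ M := pow_pos two_pos M
  have h3 : ((s : ℝ)) = ((s : ℝ) ^ (2 ^ M)) ^ ((1 : ℝ) / 2 ^ M) := by
    rw [← Real.rpow_natCast, ← Real.rpow_mul (Nat.cast_nonneg _)]
    push_cast
    rw [mul_one_div, div_self hM0.ne', Real.rpow_one]
  rw [h3]
  refine (Real.rpow_le_rpow (pow_nonneg (Nat.cast_nonneg _) _) h2 (by positivity)).trans ?_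
  rw [← Real.rpow_natCast, ← Real.rpow_mul hN0]
  apply le_of_eq
  congr 1
  rw [Nat.cast_sub Nat.one_le_two_pow]
  push_cast
  field_simp

open Classical in
/-- **All or almost none.** -/
theorem dich {m D : ℕ} {l : ℂ} (hexp : IsAlgebraic ℚ (Complex.exp l))
    (hru : ∀ r : ℕ, 0 < r → Complex.exp l ^ r ≠ 1) {β : Fin m → ℂ} (hβ : ∀ i, IsAlgebraic ℚ (β i))
    (hinj : Function.Injective β) {P : Fin m → ℂ[X]} (hP : ∀ i, Z D (P i)) (hnt : ¬ Triv β P)
    (A : ℤ) (N : ℕ) (hN : 1 ≤ N) :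
    (((Finset.Ico A (A + N)).filter fun k => EP l β P k ∈ Lt).card : ℝ) ≤
      (4 * N : ℝ) ^ (1 - 1 / 2 ^ MM m D : ℝ) := by
  set S := (Finset.Ico A (A + N)).filter fun k => EP l β P k ∈ Lt with hS
  set M := MM m D with hM
  have h1 : S.card ^ (2 ^ M) ≤ (4 * N) ^ (2 ^ M - 1) := by
    by_contra hcon
    push Not at hcon
    obtain ⟨a, δ, hδ, hc⟩ := hilbert M S A N hN (Finset.filter_subset _ _) hcon
    apply hnt
    refine cube_triv (D := D) hexp hru hβ hinj hP a δ (fun i hi => ?_) (fun T => ?_)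
    · have := hδ i
      omega
    · have := hc T
      rw [hS, Finset.mem_filter] at this
      exact this.2
  clear_value M
  exact root_bound S.card N M h1

end Pool.Agent.L5helper57.TW
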