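import Pool.Agent.TH681.TW.Mid

/-!
# Monomials in a finitely generated group without algebraic elements

`z ^ k = ∏ z_i ^ k_i`, `k ∈ ℤ ^ n`, where `z ^ k` is transcendental for `k ≠ 0`.
-/

set_option autoImplicit false

namespace Pool.Agent.L5helper57.TW

open Pool.Agent.H301R2.SSE Pool.Agent.H137R5.Tow Pool.Agent.TH681.TW
open Polynomial

/-- the monomial `z ^ k` -/
noncomputable def mon {n : ℕ} (z : Fin n → ℂ) (k : Fin n → ℤ) : ℂ := ∏ i, z i ^ k i

variable {n : ℕ} {z : Fin n → ℂ}

theorem mon_zero : mon z 0 = 1 := by simp [mon]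

theorem mon_ne (hz : ∀ i, z i ≠ 0) (k : Fin n → ℤ) : mon z k ≠ 0 :=
  Finset.prod_ne_zero_iff.mpr fun i _ => zpow_ne_zero _ (hz i)

theorem mon_add (hz : ∀ i, z i ≠ 0) (k l : Fin n → ℤ) : mon z (k + l) = mon z k * mon z l := by
  unfold mon
  rw [← Finset.prod_mul_distrib]
  apply Finset.prod_congr rfl
  intro i _
  rw [Pi.add_apply, zpow_add₀ (hz i)]

theorem mon_sub (hz : ∀ i, z i ≠ 0) (k l : Fin n → ℤ) : mon z (k - l) = mon z k / mon z l := by
  rw [eq_div_iff (mon_ne hz l), ← mon_add hz, sub_add_cancel]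

theorem mon_zsmul (hz : ∀ i, z i ≠ 0) (m : ℤ) (k : Fin n → ℤ) : mon z (m • k) = mon z k ^ m := by
  unfold mon
  rw [← Finset.prod_zpow]
  apply Finset.prod_congr rfl
  intro i _
  rw [Pi.smul_apply, smul_eq_mul, mul_comm, zpow_mul]

theorem mon_sum (hz : ∀ i, z i ≠ 0) {ι : Type*} (s : Finset ι) (k : ι → Fin n → ℤ) :
    mon z (∑ j ∈ s, k j) = ∏ j ∈ s, mon z (k j) := by
  classical
  induction s using Finset.induction_on with
  | empty => rw [Finset.sum_empty, Finset.prod_empty, mon_zero]
  | insert a s ha ih => rw [Finset.sum_insert ha, Finset.prod_insert ha, mon_add hz, ih]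

/-- if `P` and `Q` have algebraic coefficients and agree at a transcendental number they are
equal -/
theorem poly_eq {T : ℂ} (hT : Transcendental ℚ T) {P Q : QB[X]} (h : aeval T P = aeval T Q) :
    P = Q := by
  rw [← sub_eq_zero]
  by_contra hne
  have h1 : IsAlgebraic QB T := ⟨P - Q, hne, by rw [map_sub, h, sub_self]⟩
  haveI : Algebra.IsAlgebraic ℚ QB := algebraicClosure.isAlgebraic ℚ ℂ
  exact hT (h1.restrictScalars ℚ)

/-- the linear polynomials `a_j + b_j X` evaluated at a transcendental number `T`: a multiplicative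
relation with an exponent `m_j > 0` forces two of the values to be proportional -/
theorem lin_rel {ι : Type*} [Fintype ι] {T : ℂ} (hT : Transcendental ℚ T) (a b : ι → QB)
    (hb : ∀ j, b j ≠ 0) (m : ι → ℤ)
    (hne : ∀ j, (a j : ℂ) + b j * T ≠ 0)
    (h : ∏ j, ((a j : ℂ) + b j * T) ^ m j = 1) (j : ι) (hj : 0 < m j) :
    ∃ i, m i < 0 ∧ ((a i : ℂ) + b i * T) = (b i / b j : QB) * ((a j : ℂ) + b j * T) := by
  classical
  set P : QB[X] := ∏ i, (C (a i) + C (b i) * X) ^ (m i).toNat with hP
  set Q : QB[X] := ∏ i, (C (a i) + C (b i) * X) ^ (-m i).toNat with hQ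
  have hev : ∀ e : ι → ℕ, aeval T (∏ i, (C (a i) + C (b i) * X) ^ e i : QB[X]) =
      ∏ i, ((a i : ℂ) + b i * T) ^ e i := by
    intro e
    rw [map_prod]
    apply Finset.prod_congr rfl
    intro i _
    rw [map_pow, map_add, map_mul, aeval_C, aeval_C, aeval_X]
    rfl
  have hPQ : P = Q := by
    apply poly_eq hT
    rw [hP, hQ, hev, hev]
    have h1 : ∏ i, ((a i : ℂ) + b i * T) ^ (m i).toNat =
        (∏ i, ((a i : ℂ) + b i * T) ^ m i) * ∏ i, ((a i : ℂ) + b i * T) ^ (-m i).toNat := by
      rw [← Finset.prod_mul_distrib]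
      apply Finset.prod_congr rfl
      intro i _
      have h2 := hne i
      rw [← zpow_natCast, ← zpow_natCast, ← zpow_add₀ h2]
      congr 1
      omega
    rw [h1, h, one_mul]
  set x : QB := -a j / b j with hx
  have hroot : P.eval x = 0 := by
    rw [hP, eval_prod]
    apply Finset.prod_eq_zero (Finset.mem_univ j)
    rw [eval_pow, eval_add, eval_mul, eval_C, eval_C, eval_X]
    have h1 : a j + b j * x = 0 := by
      rw [hx]
      field_simp [hb j]
      ring
    rw [h1, zero_pow]
    omega
  rw [hPQ, hQ, eval_prod, Finset.prod_eq_zero_iff] at hroot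
  obtain ⟨i, -, hi⟩ := hroot
  rw [eval_pow] at hi
  have hmi : (-m i).toNat ≠ 0 := by
    intro h0
    rw [h0, pow_zero] at hi
    exact one_ne_zero hi
  have hi2 := pow_eq_zero_iff hmi |>.mp hi
  rw [eval_add, eval_mul, eval_C, eval_C, eval_X] at hi2
  refine ⟨i, by omega, ?_⟩
  have h3 : a i * b j = b i * a j := by
    rw [hx] at hi2
    have h4 := hb j
    field_simp at hi2
    linear_combination hi2
  have h3' : (a i : ℂ) * b j = b i * a j := by exact_mod_cast congrArg (Subtype.val) h3
  have hbj : (b j : ℂ) ≠ 0 := by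
    intro h0
    exact hb j (Subtype.ext h0)
  push_cast
  field_simp
  linear_combination h3'

/-- Among `n + 2` elements of a group of rank `n` without algebraic elements `≠ 1` three are
linearly independent over the algebraic numbers. -/
theorem three_indep (hz : ∀ i, z i ≠ 0) (htr : ∀ k, k ≠ 0 → Transcendental ℚ (mon z k))
    (K : Fin (n + 2) → Fin n → ℤ) (hK : Function.Injective K) :
    ∃ j : Fin (n + 2), Ind3 (mon z (K 0)) (mon z (K 1)) (mon z (K j)) := by
  classical
  by_contra hcon
  push Not at hcon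
  have h01 : K 1 - K 0 ≠ 0 := by
    intro h
    have := hK (sub_eq_zero.mp h)
    simp at this
  set T : ℂ := mon z (K 1 - K 0) with hTdef
  have hT : Transcendental ℚ T := htr _ h01
  -- every value is an algebraic linear combination of `1` and `T`
  have key : ∀ j : Fin (n + 2), ∃ a b : QB, mon z (K j - K 0) = (a : ℂ) + b * T := by
    intro j
    have h1 := hcon j
    unfold Ind3 at h1
    push Not at h1
    obtain ⟨a, c, d, ha, hc, hd, hs, hne⟩ := h1
    have hK0 := mon_ne hz (K 0)
    have e1 : mon z (K 1) = mon z (K 0) * T := by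
      rw [hTdef, mon_sub hz]
      field_simp
    have e2 : mon z (K j) = mon z (K 0) * mon z (K j - K 0) := by
      rw [mon_sub hz]
      field_simp
    rw [e1, e2] at hs
    have hs' : a + c * T + d * mon z (K j - K 0) = 0 := by
      apply mul_left_cancel₀ hK0
      rw [mul_zero, ← hs]
      ring
    have hd0 : d ≠ 0 := by
      intro hd0
      subst hd0
      have hc0 : c = 0 := by
        by_contra hc0
        apply hT
        have : T = -a / c := by
          field_simp
          linear_combination hs'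
        rw [this]
        exact (ha.neg).mul hc.inv
      subst hc0
      have ha0 : a = 0 := by simpa using hs'
      exact hne ha0 rfl rfl
    refine ⟨⟨-a / d, mem_QB.mpr ((ha.neg).mul hd.inv)⟩, ⟨-c / d, mem_QB.mpr ((hc.neg).mul hd.inv)⟩, ?_⟩
    change mon z (K j - K 0) = -a / d + -c / d * T
    field_simp
    linear_combination hs'
  choose a b hab using key
  -- the differences `K (j + 1) - K 0` are dependent
  have hdep : ¬ LinearIndependent ℤ (fun j : Fin (n + 1) => K j.succ - K 0) := by
    intro hli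
    have := hli.fintype_card_le_finrank
    rw [Module.finrank_pi, Fintype.card_fin, Fintype.card_fin] at this
    omega
  rw [Fintype.not_linearIndependent_iff] at hdep
  obtain ⟨m, hm, j0, hj0⟩ := hdep
  have htrj : ∀ j : Fin (n + 1), Transcendental ℚ (mon z (K j.succ - K 0)) := by
    intro j
    apply htr
    intro h
    have := hK (sub_eq_zero.mp h)
    exact Fin.succ_ne_zero j this
  have hb : ∀ j : Fin (n + 1), b j.succ ≠ 0 := by
    intro j h0
    apply htrj j
    rw [hab, h0]
    simpa using mem_QB.mp (a j.succ).2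
  have hne : ∀ j : Fin (n + 1), (a j.succ : ℂ) + b j.succ * T ≠ 0 := by
    intro j
    rw [← hab]
    exact mon_ne hz _
  have hprod : ∀ m : Fin (n + 1) → ℤ, ∑ j, m j • (K j.succ - K 0) = 0 →
      ∏ j, ((a j.succ : ℂ) + b j.succ * T) ^ m j = 1 := by
    intro m hm
    rw [← mon_zero (z := z), ← hm, mon_sum hz]
    apply Finset.prod_congr rfl
    intro j _
    rw [mon_zsmul hz, hab]
  -- contradiction from a positive exponent
  have fin : ∀ m : Fin (n + 1) → ℤ, ∑ j, m j • (K j.succ - K 0) = 0 → ∀ j, ¬ 0 < m j := by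
    intro m hm j hj
    obtain ⟨i, hi, hprop⟩ := lin_rel hT (fun j : Fin (n + 1) => a j.succ)
      (fun j => b j.succ) hb m hne (hprod m hm) j hj
    have hij : i ≠ j := by
      intro h
      subst h
      omega
    have h1 : mon z (K i.succ - K j.succ) = ((b i.succ / b j.succ : QB) : ℂ) := by
      have h2 : K i.succ - K j.succ = (K i.succ - K 0) - (K j.succ - K 0) := by abel
      rw [h2, mon_sub hz, hab, hab, hprop, mul_div_assoc, div_self (hne j), mul_one]
    have h3 : Transcendental ℚ (mon z (K i.succ - K j.succ)) := by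
      apply htr
      intro h
      have := hK (sub_eq_zero.mp h)
      exact hij (Fin.succ_injective _ this)
    apply h3
    rw [h1]
    exact mem_QB.mp (b i.succ / b j.succ : QB).2
  rcases lt_trichotomy (m j0) 0 with h | h | h
  · refine fin (fun j => -m j) ?_ j0 (by omega)
    have : ∑ j, (-m j) • (K j.succ - K 0) = -∑ j, m j • (K j.succ - K 0) := by
      rw [← Finset.sum_neg_distrib]
      apply Finset.sum_congr rfl
      intro j _
      rw [neg_smul]
    rw [this, hm, neg_zero]
  · exact hj0 h
  · exact fin m hm j0 h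

/-- A nonzero difference occurs at most `n + 1` times. -/
theorem diff_le (hz : ∀ i, z i ≠ 0) (htr : ∀ k, k ≠ 0 → Transcendental ℚ (mon z k))
    {v : ℂ} (hv : v ≠ 0) (r : Fin n → ℤ) (hr : r ≠ 0) (S : Finset (Fin n → ℤ))
    (h0 : ∀ k ∈ S, v * mon z k ∈ Lt) (h1 : ∀ k ∈ S, v * mon z (k + r) ∈ Lt) :
    S.card ≤ n + 1 := by
  classical
  by_contra hcon
  push Not at hcon
  obtain ⟨S', hS', hc⟩ := Finset.exists_subset_card_eq (s := S) (n := n + 2) (by omega)
  set K : Fin (n + 2) → Fin n → ℤ := fun j => ((S'.equivFin.symm (Fin.cast hc.symm j) : S') : _) with hK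
  have hinj : Function.Injective K := by
    intro i j hij
    have h2 := S'.equivFin.symm.injective (Subtype.ext hij)
    exact Fin.cast_injective _ h2
  have hmem : ∀ j, K j ∈ S := fun j => hS' (Subtype.prop _)
  obtain ⟨j, hj⟩ := three_indep hz htr K hinj
  have h2 : ∀ i, mon z r * (v * mon z (K i)) ∈ Lt := by
    intro i
    have h3 := h1 _ (hmem i)
    rw [mon_add hz] at h3
    have h4 : mon z r * (v * mon z (K i)) = v * (mon z (K i) * mon z r) := by ring
    rw [h4]
    exact h3
  exact coreC (mon z r) (htr r hr) _ _ _ (hj.smul hv) (h0 _ (hmem 0)) (h0 _ (hmem 1))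
    (h0 _ (hmem j)) (h2 0) (h2 1) (h2 j)

open scoped Pointwise in
/-- counting: differences with at most `D` occurrences -/
theorem card_sq {G : Type*} [AddCommGroup G] [DecidableEq G] (S X : Finset G) (hSX : S ⊆ X)
    (D : ℕ) (h : ∀ r : G, r ≠ 0 → ∀ S' ⊆ S, (∀ k ∈ S', k + r ∈ S) → S'.card ≤ D) :
    S.card * S.card ≤ D * (X - X).card + S.card := by
  have h1 := Finset.card_le_mul_card_image (f := fun x : G × G => x.2 - x.1) S.offDiag D (by
    intro r hr
    obtain ⟨x, hx, hxr⟩ := Finset.mem_image.mp hr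
    have hr0 : r ≠ 0 := by
      rw [Finset.mem_offDiag] at hx
      intro h0
      apply hx.2.2
      rw [h0] at hxr
      exact (sub_eq_zero.mp hxr).symm
    have h2 := h r hr0 ((S.offDiag.filter fun x => x.2 - x.1 = r).image Prod.fst) (by
      intro k hk
      obtain ⟨x, hx, rfl⟩ := Finset.mem_image.mp hk
      rw [Finset.mem_filter, Finset.mem_offDiag] at hx
      exact hx.1.1) (by
      intro k hk
      obtain ⟨x, hx, rfl⟩ := Finset.mem_image.mp hk
      rw [Finset.mem_filter, Finset.mem_offDiag] at hx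
      have : x.1 + r = x.2 := by rw [← hx.2]; abel
      rw [this]
      exact hx.1.2.1)
    rwa [Finset.card_image_of_injOn] at h2
    intro x hx y hy hxy
    rw [Finset.mem_coe, Finset.mem_filter] at hx hy
    ext
    · exact hxy
    · have e1 : x.2 = x.1 + r := by rw [← hx.2]; abel
      have e2 : y.2 = y.1 + r := by rw [← hy.2]; abel
      have hxy' : x.1 = y.1 := hxy
      rw [e1, e2, hxy'])
  have h2 : (S.offDiag.image (fun x : G × G => x.2 - x.1)).card ≤ (X - X).card := by
    apply Finset.card_le_card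
    intro r hr
    obtain ⟨x, hx, rfl⟩ := Finset.mem_image.mp hr
    rw [Finset.mem_offDiag] at hx
    exact Finset.sub_mem_sub (hSX hx.2.1) (hSX hx.1)
  rw [Finset.offDiag_card] at h1
  have h3 : S.card ≤ S.card * S.card := Nat.le_mul_self _
  have h4 := Nat.mul_le_mul_left D h2
  omega

theorem sqrt_of_sq {s D : ℕ} (h : s * s ≤ D + s) : (s : ℝ) ≤ Real.sqrt D + 1 := by
  have h2 : (s : ℝ) * s ≤ D + s := by exact_mod_cast h
  have h3 : Real.sqrt D * Real.sqrt D = D := Real.mul_self_sqrt (Nat.cast_nonneg _)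
  have h4 : 0 ≤ Real.sqrt D := Real.sqrt_nonneg _
  by_contra hcon
  push Not at hcon
  nlinarith

open Classical Pointwise in
/-- **Counting theorem.** -/
theorem count_mon (hz : ∀ i, z i ≠ 0) (htr : ∀ k, k ≠ 0 → Transcendental ℚ (mon z k))
    {v : ℂ} (hv : v ≠ 0) (X : Finset (Fin n → ℤ)) :
    ((X.filter fun k => v * mon z k ∈ Lt).card : ℝ) ≤
      Real.sqrt ((n + 1) * ((X - X).card : ℝ)) + 1 := by
  set S := X.filter fun k => v * mon z k ∈ Lt with hS
  have h1 := card_sq S X (Finset.filter_subset _ _) (n + 1) (by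
    intro r hr S' hS' h
    refine diff_le hz htr hv r hr S' ?_ ?_
    · intro k hk
      have := hS' hk
      rw [hS, Finset.mem_filter] at this
      exact this.2
    · intro k hk
      have := h k hk
      rw [hS, Finset.mem_filter] at this
      exact this.2)
  have h2 := sqrt_of_sq h1
  push_cast at h2
  exact h2

end Pool.Agent.L5helper57.TW
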