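import Pool.Agent.L5helper57.TW.Tow

/-!
# Polynomial exponents: the dimension of the space of exceptions
-/

set_option autoImplicit false

namespace Pool.Agent.L5helper57.TW

open Module Pool.Agent.H301R2.SSE Pool.Agent.H137R5.Tow Pool.Agent.TH681.TW

/-- the `u` with `v u` a linear form -/
noncomputable def VL (v : ℂ) : Submodule QB ℂ := Lt.comap (LinearMap.mulLeft QB v)

theorem mem_VL {v u : ℂ} : u ∈ VL v ↔ v * u ∈ Lt := by
  unfold VL
  rw [Submodule.mem_comap, LinearMap.mulLeft_apply]

theorem inj_mul {f : ℂ} (hf0 : f ≠ 0) : Function.Injective (LinearMap.mulLeft QB f) := by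
  intro x y h
  rw [LinearMap.mulLeft_apply, LinearMap.mulLeft_apply] at h
  exact mul_left_cancel₀ hf0 h

/-- strong six exponentials in terms of dimensions -/
theorem inter_le {v f : ℂ} (hv : v ≠ 0) (hf : Transcendental ℚ f) (W : Submodule QB ℂ)
    [FiniteDimensional QB W] (hW : W ≤ VL v) :
    finrank QB (W ⊓ W.map (LinearMap.mulLeft QB f) : Submodule QB ℂ) ≤ 2 := by
  by_contra hcon
  push Not at hcon
  have hf0 : f ≠ 0 := by
    rintro rfl
    exact hf isAlgebraic_zero
  obtain ⟨y, hy⟩ := exists_linearIndependent_of_le_finrank (R := QB)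
    (M := (W ⊓ W.map (LinearMap.mulLeft QB f) : Submodule QB ℂ)) (n := 3) (by omega)
  have hW1 : ∀ i, (y i : ℂ) ∈ W := fun i => (Submodule.mem_inf.mp (y i).2).1
  have hW2 : ∀ i, ∃ u ∈ W, f * u = (y i : ℂ) := fun i => by
    obtain ⟨u, hu, hu2⟩ := Submodule.mem_map.mp (Submodule.mem_inf.mp (y i).2).2
    exact ⟨u, hu, hu2⟩
  choose u hu hu2 using hW2
  have hli : LinearIndependent QB (fun i => (y i : ℂ)) := hy.map' (Submodule.subtype _)
    (Submodule.ker_subtype _)
  have h3 : Ind3 (v * u 0) (v * u 1) (v * u 2) := by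
    apply Ind3.smul _ hv
    intro a c d ha hc hd hs
    rw [Fintype.linearIndependent_iff] at hli
    have h1 := hli ![⟨a, mem_QB.mpr ha⟩, ⟨c, mem_QB.mpr hc⟩, ⟨d, mem_QB.mpr hd⟩] (by
      rw [Fin.sum_univ_three]
      change a * (y 0 : ℂ) + c * (y 1 : ℂ) + d * (y 2 : ℂ) = 0
      rw [← hu2, ← hu2, ← hu2]
      linear_combination f * hs)
    refine ⟨congrArg Subtype.val (h1 0), congrArg Subtype.val (h1 1), congrArg Subtype.val (h1 2)⟩
  have hm : ∀ i, v * u i ∈ Lt := fun i => mem_VL.mp (hW (hu i))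
  have hm2 : ∀ i, f * (v * u i) ∈ Lt := fun i => by
    have h2 := mem_VL.mp (hW (hW1 i))
    rw [← hu2] at h2
    have h4 : f * (v * u i) = v * (f * u i) := by ring
    rw [h4]
    exact h2
  exact coreC f hf _ _ _ h3 (hm 0) (hm 1) (hm 2) (hm2 0) (hm2 1) (hm2 2)

/-- **At least about half of the dimension is free.** -/
theorem half {v f : ℂ} (hv : v ≠ 0) (hf : Transcendental ℚ f) (U : Submodule QB ℂ)
    [FiniteDimensional QB U] :
    2 * finrank QB (U ⊓ VL v : Submodule QB ℂ) ≤
      finrank QB (U ⊔ U.map (LinearMap.mulLeft QB f) : Submodule QB ℂ) + 2 := by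
  have hf0 : f ≠ 0 := by
    rintro rfl
    exact hf isAlgebraic_zero
  set W : Submodule QB ℂ := U ⊓ VL v with hWdef
  have hWU : W ≤ U := inf_le_left
  have : FiniteDimensional QB W := Submodule.finiteDimensional_of_le hWU
  set W' : Submodule QB ℂ := W.map (LinearMap.mulLeft QB f) with hW'
  have : FiniteDimensional QB W' := by
    rw [hW']
    infer_instance
  have : FiniteDimensional QB (U.map (LinearMap.mulLeft QB f)) := inferInstance
  have h1 : finrank QB W' = finrank QB W := by
    exact (Submodule.equivMapOfInjective (LinearMap.mulLeft QB f) (inj_mul hf0) W).finrank_eq.symm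
  have h2 := Submodule.finrank_sup_add_finrank_inf_eq W W'
  have h3 : finrank QB (W ⊓ W' : Submodule QB ℂ) ≤ 2 := inter_le hv hf W inf_le_right
  have h4 : finrank QB (W ⊔ W' : Submodule QB ℂ) ≤
      finrank QB (U ⊔ U.map (LinearMap.mulLeft QB f) : Submodule QB ℂ) := by
    apply Submodule.finrank_mono
    exact sup_le_sup hWU (Submodule.map_mono hWU)
  omega

/-- the span of `1, z, ..., z ^ N` -/
noncomputable def PU (z : ℂ) (N : ℕ) : Submodule QB ℂ :=
  Submodule.span QB (Set.range fun i : Fin (N + 1) => z ^ (i : ℕ))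

instance (z : ℂ) (N : ℕ) : FiniteDimensional QB (PU z N) :=
  FiniteDimensional.span_of_finite QB (Set.finite_range _)

theorem PU_dim {v z : ℂ} (hv : v ≠ 0) (hz : Transcendental ℚ z) (N : ℕ) :
    2 * finrank QB (PU z N ⊓ VL v : Submodule QB ℂ) ≤ N + 4 := by
  refine (half hv hz (PU z N)).trans ?_
  have h1 : PU z N ⊔ (PU z N).map (LinearMap.mulLeft QB z) ≤ PU z (N + 1) := by
    apply sup_le
    · unfold PU
      apply Submodule.span_mono
      rintro _ ⟨i, rfl⟩
      exact ⟨⟨i, by omega⟩, rfl⟩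
    · unfold PU
      rw [Submodule.map_span]
      apply Submodule.span_mono
      rintro _ ⟨_, ⟨i, rfl⟩, rfl⟩
      refine ⟨⟨i + 1, by omega⟩, ?_⟩
      rw [LinearMap.mulLeft_apply]
      change z ^ ((i : ℕ) + 1) = z * z ^ (i : ℕ)
      ring
  have h2 := Submodule.finrank_mono h1
  have h3 : finrank QB (PU z (N + 1)) ≤ N + 2 := by
    unfold PU
    refine (finrank_range_le_card _).trans ?_
    rw [Fintype.card_fin]
  omega

/-- coordinates which determine the elements of a subspace -/
theorem exists_coords {K : Type*} [Field K] {n : ℕ} (W : Submodule K (Fin n → K)) :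
    ∃ J : Finset (Fin n), J.card ≤ finrank K W ∧ ∀ w ∈ W, (∀ j ∈ J, w j = 0) → w = 0 := by
  classical
  obtain ⟨J, hJ⟩ : ∃ J : Finset (Fin n), Minimal (fun J : Finset (Fin n) =>
      ∀ w ∈ W, (∀ j ∈ J, w j = 0) → w = 0) J := by
    have := Finset.exists_minimal (s := (Finset.univ : Finset (Finset (Fin n))).filter
      (fun J => ∀ w ∈ W, (∀ j ∈ J, w j = 0) → w = 0)) ⟨Finset.univ, by
        rw [Finset.mem_filter]
        refine ⟨Finset.mem_univ _, fun w _ h => ?_⟩
        funext j
        exact h j (Finset.mem_univ j)⟩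
    obtain ⟨J, hJ⟩ := this
    refine ⟨J, (Finset.mem_filter.mp hJ.prop).2, fun J' hJ' hle => ?_⟩
    exact hJ.le_of_le (Finset.mem_filter.mpr ⟨Finset.mem_univ _, hJ'⟩) hle
  refine ⟨J, ?_, hJ.prop⟩
  have key : ∀ j : J, ∃ w : W, (w : Fin n → K) j ≠ 0 ∧ ∀ i ∈ J, i ≠ j → (w : Fin n → K) i = 0 := by
    intro j
    have h1 : ¬ ∀ w ∈ W, (∀ i ∈ J.erase j, w i = 0) → w = 0 := by
      intro h
      have := hJ.le_of_le h (Finset.erase_subset _ _) j.2
      exact absurd this (Finset.notMem_erase _ _)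
    push Not at h1
    obtain ⟨w, hw, hw2, hw3⟩ := h1
    refine ⟨⟨w, hw⟩, ?_, fun i hi hij => hw2 i (Finset.mem_erase.mpr ⟨hij, hi⟩)⟩
    intro h0
    apply hw3
    apply hJ.prop w hw
    intro i hi
    by_cases hij : i = j
    · rw [hij]; exact h0
    · exact hw2 i (Finset.mem_erase.mpr ⟨hij, hi⟩)
  choose w hw hw2 using key
  have hli : LinearIndependent K w := by
    rw [Fintype.linearIndependent_iff]
    intro g hg j
    have h1 := congrArg (fun x : W => (x : Fin n → K) j) hg
    simp only [Submodule.coe_sum, Submodule.coe_smul, Finset.sum_apply, Pi.smul_apply,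
      smul_eq_mul, Submodule.coe_zero, Pi.zero_apply] at h1
    rw [Finset.sum_eq_single j] at h1
    · exact (mul_eq_zero.mp h1).resolve_right (hw j)
    · intro i _ hij
      rw [hw2 i j j.2 (fun h => hij (Subtype.ext h.symm)), mul_zero]
    · intro h
      exact absurd (Finset.mem_univ j) h
  have := hli.fintype_card_le_finrank
  rwa [Fintype.card_coe] at this

/-- integer points of a box in a subspace -/
theorem count_sub {K : Type*} [Field K] [CharZero K] {n : ℕ} (W : Submodule K (Fin n → K)) (H : ℕ)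
    (S : Finset (Fin n → ℤ)) (hS : ∀ c ∈ S, (∀ i, |c i| ≤ H) ∧ (fun i => (c i : K)) ∈ W) :
    S.card ≤ (2 * H + 1) ^ finrank K W := by
  classical
  obtain ⟨J, hJ, hinj⟩ := exists_coords W
  have h1 : S.card ≤ (Fintype.piFinset fun _ : J => Finset.Icc (-H : ℤ) H).card := by
    apply Finset.card_le_card_of_injOn (fun c (j : J) => c j)
    · intro c hc
      rw [Finset.mem_coe, Fintype.mem_piFinset]
      intro j
      have := abs_le.mp ((hS c hc).1 j)
      exact Finset.mem_Icc.mpr this
    · intro c hc c' hc' h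
      have h2 := hinj _ (W.sub_mem (hS c hc).2 (hS c' hc').2) (by
        intro j hj
        have : c j = c' j := congrFun h ⟨j, hj⟩
        simp [this])
      funext i
      have h3 := congrFun h2 i
      simp only [Pi.sub_apply, Pi.zero_apply, sub_eq_zero] at h3
      exact_mod_cast h3
  refine h1.trans ?_
  rw [Fintype.card_piFinset, Finset.prod_const, Int.card_Icc, Finset.card_univ, Fintype.card_coe]
  have : ((H : ℤ) + 1 - -H).toNat = 2 * H + 1 := by omega
  rw [this]
  exact Nat.pow_le_pow_right (by omega) hJ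

/-- the evaluation of coefficient vectors -/
noncomputable def evz (z : ℂ) (N : ℕ) : (Fin (N + 1) → QB) →ₗ[QB] ℂ :=
  Fintype.linearCombination QB (fun i : Fin (N + 1) => z ^ (i : ℕ))

theorem evz_apply (z : ℂ) (N : ℕ) (c : Fin (N + 1) → QB) :
    evz z N c = ∑ i, (c i : ℂ) * z ^ (i : ℕ) := by
  unfold evz
  rw [Fintype.linearCombination_apply]
  rfl

theorem evz_inj {z : ℂ} (hz : Transcendental ℚ z) (N : ℕ) : Function.Injective (evz z N) := by
  rw [injective_iff_map_eq_zero]
  intro c hc
  rw [evz_apply] at hc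
  set p : Polynomial QB := ∑ i : Fin (N + 1), Polynomial.C (c i) * Polynomial.X ^ (i : ℕ) with hp
  have h1 : Polynomial.aeval z p = Polynomial.aeval z (0 : Polynomial QB) := by
    rw [map_zero, hp, map_sum, ← hc]
    apply Finset.sum_congr rfl
    intro i _
    rw [map_mul, map_pow, Polynomial.aeval_C, Polynomial.aeval_X]
    rfl
  have h2 := poly_eq hz h1
  funext i
  have h3 := congrArg (fun q => Polynomial.coeff q i) h2
  rw [hp] at h3
  simp only [Polynomial.finsetSum_coeff, Polynomial.coeff_C_mul, Polynomial.coeff_X_pow,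
    Polynomial.coeff_zero] at h3
  rw [Finset.sum_eq_single i] at h3
  · simpa using h3
  · intro j _ hij
    rw [if_neg (fun h => hij (Fin.ext h.symm)), mul_zero]
  · intro h
    exact absurd (Finset.mem_univ i) h

/-- the space of coefficient vectors with exceptional values -/
theorem coef_dim {v z : ℂ} (hv : v ≠ 0) (hz : Transcendental ℚ z) (N : ℕ) :
    2 * finrank QB ((VL v).comap (evz z N)) ≤ N + 4 := by
  refine le_trans ?_ (PU_dim hv hz N)
  apply Nat.mul_le_mul_left
  have h1 : ((VL v).comap (evz z N)).map (evz z N) ≤ PU z N ⊓ VL v := by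
    rintro _ ⟨c, hc, rfl⟩
    refine ⟨?_, hc⟩
    rw [evz_apply]
    refine (PU z N).sum_mem fun i _ => ?_
    exact (PU z N).smul_mem (c i) (Submodule.subset_span ⟨i, rfl⟩)
  have h2 := Submodule.finrank_mono h1
  have h3 := (Submodule.equivMapOfInjective (evz z N) (evz_inj hz N)
    ((VL v).comap (evz z N))).finrank_eq
  omega

/-- **Integer polynomials.** -/
theorem count_poly {v z : ℂ} (hv : v ≠ 0) (hz : Transcendental ℚ z) (N H : ℕ)
    (S : Finset (Fin (N + 1) → ℤ))
    (hS : ∀ c ∈ S, (∀ i, |c i| ≤ H) ∧ v * ∑ i, (c i : ℂ) * z ^ (i : ℕ) ∈ Lt) :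
    S.card ≤ (2 * H + 1) ^ (N / 2 + 2) := by
  refine (count_sub ((VL v).comap (evz z N)) H S (fun c hc => ⟨(hS c hc).1, ?_⟩)).trans ?_
  · rw [Submodule.mem_comap, mem_VL, evz_apply]
    have := (hS c hc).2
    convert this using 3
    congr 1
  · apply Nat.pow_le_pow_right (by omega)
    have := coef_dim hv hz N
    omega

end Pool.Agent.L5helper57.TW
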