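import Pool.Agent.L5helper57.TW.Exp

/-!
# Products of towers with top entries in a number field
-/

set_option autoImplicit false

namespace Pool.Agent.L5helper57.TW

open Pool.Agent.TH160.TowP Polynomial
open Pool.Agent.H301R2.SSE (Lt Lt_log)

/-- `v₀ + ∑ v_j e ^ {λ γ_j x}` -/
noncomputable def NFF {m : ℕ} (l : ℂ) (γ v : Fin m → ℂ) (v0 x : ℂ) : ℂ :=
  v0 + ∑ j, v j * Complex.exp (l * (γ j * x))

open Classical in
/-- along a line -/
theorem line_count {m : ℕ} {l : ℂ} (hexp : IsAlgebraic ℚ (Complex.exp l))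
    (hru : ∀ r : ℕ, 0 < r → Complex.exp l ^ r ≠ 1) {γ : Fin m → ℂ} (hγ : ∀ i, IsAlgebraic ℚ (γ i))
    (hγ0 : ∀ i, γ i ≠ 0) (hinj : Function.Injective γ) (v : Fin m → ℂ) (v0 : ℂ) (d : ℂ)
    (hd : IsAlgebraic ℚ d) (hd0 : d ≠ 0) (j : Fin m) (hj : v j ≠ 0) (hjd : ∀ r : ℚ, γ j * d ≠ r)
    (x0 : ℂ) (A : ℤ) (N : ℕ) (hN : 1 ≤ N) :
    (((Finset.Ico A (A + N)).filter fun k : ℤ => NFF l γ v v0 (x0 + k * d) ∈ Lt).card : ℝ) ≤
      (4 * N : ℝ) ^ (1 - 1 / 2 ^ MM (m + 1) 1 : ℝ) := by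
  set β' : Fin (m + 1) → ℂ := Fin.cons 0 (fun i => γ i * d) with hβ'
  set P' : Fin (m + 1) → ℂ[X] := Fin.cons (C v0)
    (fun i => C (v i * Complex.exp (l * (γ i * x0)))) with hP'
  have hEP : ∀ k : ℤ, NFF l γ v v0 (x0 + k * d) = EP l β' P' k := by
    intro k
    unfold NFF EP
    rw [Fin.sum_univ_succ]
    simp only [hβ', hP', Fin.cons_zero, Fin.cons_succ, eval_C, zero_mul, mul_zero,
      Complex.exp_zero, one_mul]
    congr 1
    apply Finset.sum_congr rfl
    intro i _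
    have : l * (γ i * (x0 + k * d)) = l * (γ i * d * k) + l * (γ i * x0) := by ring
    rw [this, Complex.exp_add]
    ring
  simp only [hEP]
  refine dich (D := 1) hexp hru ?_ ?_ ?_ ?_ A N hN
  · intro i
    refine Fin.cases ?_ ?_ i
    · exact isAlgebraic_zero
    · intro i
      exact (hγ i).mul hd
  · intro i i' h
    induction i using Fin.cases with
    | zero =>
      induction i' using Fin.cases with
      | zero => rfl
      | succ i' =>
        rw [hβ', Fin.cons_zero, Fin.cons_succ] at h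
        exact absurd h.symm (mul_ne_zero (hγ0 i') hd0)
    | succ i =>
      induction i' using Fin.cases with
      | zero =>
        rw [hβ', Fin.cons_zero, Fin.cons_succ] at h
        exact absurd h (mul_ne_zero (hγ0 i) hd0)
      | succ i' =>
        rw [hβ', Fin.cons_succ, Fin.cons_succ] at h
        rw [hinj (mul_right_cancel₀ hd0 h)]
  · intro i k hk
    refine Fin.cases ?_ ?_ i
    · rw [hP', Fin.cons_zero, coeff_C, if_neg (by omega)]
    · intro i
      rw [hP', Fin.cons_succ, coeff_C, if_neg (by omega)]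
  · intro ht
    have h1 := (ht (Fin.succ j)).1 (by
      rintro ⟨r, hr⟩
      rw [hβ', Fin.cons_succ] at hr
      exact hjd r hr)
    rw [hP', Fin.cons_succ, C_eq_zero] at h1
    exact mul_ne_zero hj (Complex.exp_ne_zero _) h1

open Classical in
/-- **Number fields.** -/
theorem nf_count {m n : ℕ} {l : ℂ} (hexp : IsAlgebraic ℚ (Complex.exp l))
    (hru : ∀ r : ℕ, 0 < r → Complex.exp l ^ r ≠ 1) {γ : Fin m → ℂ} (hγ : ∀ i, IsAlgebraic ℚ (γ i))
    (hγ0 : ∀ i, γ i ≠ 0) (hinj : Function.Injective γ) (v : Fin m → ℂ) (v0 : ℂ)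
    (j : Fin m) (hj : v j ≠ 0) (θ : ℂ) (hθ : IsAlgebraic ℚ θ) (hθi : ∀ r : ℚ, θ ≠ r)
    (η : Fin n → ℂ) (H : ℕ) :
    (((Finset.Icc 1 H ×ˢ Finset.Icc (-H : ℤ) H ×ˢ Finset.Icc (-H : ℤ) H ×ˢ
      Fintype.piFinset fun _ : Fin n => Finset.Icc (-H : ℤ) H).filter fun t : ℕ × ℤ × ℤ × (Fin n → ℤ) =>
        NFF l γ v v0 ((t.2.1 + t.2.2.1 * θ + ∑ i, t.2.2.2 i * η i) / t.1) ∈ Lt).card : ℝ) ≤
      H * (2 * H + 1) ^ (n + 1) * (8 * H + 4 : ℝ) ^ (1 - 1 / 2 ^ MM (m + 1) 1 : ℝ) := by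
  set B : ℝ := (8 * H + 4 : ℝ) ^ (1 - 1 / 2 ^ MM (m + 1) 1 : ℝ) with hB
  have hIcc : Finset.Icc (-H : ℤ) H = Finset.Ico (-H : ℤ) (-H + ((2 * H + 1 : ℕ) : ℤ)) := by
    ext x
    rw [Finset.mem_Icc, Finset.mem_Ico]
    push_cast
    omega
  have hBc : (4 * ((2 * H + 1 : ℕ) : ℝ)) ^ (1 - 1 / 2 ^ MM (m + 1) 1 : ℝ) = B := by
    rw [hB]
    congr 1
    push_cast
    ring
  have hcard : (Finset.Icc (-H : ℤ) H).card = 2 * H + 1 := by
    rw [Int.card_Icc]
    omega
  have hpi : (Fintype.piFinset fun _ : Fin n => Finset.Icc (-H : ℤ) H).card = (2 * H + 1) ^ n := by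
    rw [Fintype.card_piFinset, Finset.prod_const, hcard, Finset.card_univ, Fintype.card_fin]
  set X := Fintype.piFinset fun _ : Fin n => Finset.Icc (-H : ℤ) H with hX
  set I := Finset.Icc (-H : ℤ) H with hI
  set G : ℕ → ℤ → ℤ → (Fin n → ℤ) → ℝ := fun q k0 k1 k =>
    if NFF l γ v v0 ((k0 + k1 * θ + ∑ i, k i * η i) / q) ∈ Lt then 1 else 0 with hG
  have hsum : (((Finset.Icc 1 H ×ˢ I ×ˢ I ×ˢ X).filter fun t : ℕ × ℤ × ℤ × (Fin n → ℤ) =>
        NFF l γ v v0 ((t.2.1 + t.2.2.1 * θ + ∑ i, t.2.2.2 i * η i) / t.1) ∈ Lt).card : ℝ) =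
      ∑ q ∈ Finset.Icc 1 H, ∑ k0 ∈ I, ∑ k1 ∈ I, ∑ k ∈ X, G q k0 k1 k := by
    rw [Finset.card_filter]
    simp only [Finset.sum_product, Nat.cast_sum, hG, Nat.cast_ite, Nat.cast_one, Nat.cast_zero]
  rw [hsum]
  by_cases hr : ∃ r : ℚ, γ j = r
  · -- slices in the direction of `θ`
    have hsl : ∀ q ∈ Finset.Icc 1 H, ∀ k0 ∈ I, ∀ k ∈ X, ∑ k1 ∈ I, G q k0 k1 k ≤ B := by
      intro q hq k0 _ k _
      have hq0 : (q : ℂ) ≠ 0 := by
        have := (Finset.mem_Icc.mp hq).1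
        have : q ≠ 0 := by omega
        exact_mod_cast this
      have h1 := line_count hexp hru hγ hγ0 hinj v v0 (θ / q) (hθ.mul (isAlgebraic_natCast q).inv)
        (div_ne_zero (fun h => hθi 0 (by simpa using h)) hq0) j hj (by
          intro r hr'
          obtain ⟨s, hs⟩ := hr
          have hs0 : (s : ℂ) ≠ 0 := by rw [← hs]; exact hγ0 j
          apply hθi (r * q / s)
          rw [hs] at hr'
          push_cast
          field_simp at hr' ⊢
          linear_combination hr') ((k0 + ∑ i, k i * η i) / q) (-H : ℤ) (2 * H + 1) (by omega)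
      rw [← hIcc, hBc, Finset.card_filter, Nat.cast_sum] at h1
      refine le_trans (le_of_eq ?_) h1
      apply Finset.sum_congr rfl
      intro k1 _
      rw [hG]
      simp only
      have : ((k0 : ℂ) + k1 * θ + ∑ i, k i * η i) / q =
          (k0 + ∑ i, k i * η i) / q + k1 * (θ / q) := by ring
      rw [this]
      split_ifs <;> simp
    have e1 : ∑ q ∈ Finset.Icc 1 H, ∑ k0 ∈ I, ∑ k1 ∈ I, ∑ k ∈ X, G q k0 k1 k =
        ∑ q ∈ Finset.Icc 1 H, ∑ k0 ∈ I, ∑ k ∈ X, ∑ k1 ∈ I, G q k0 k1 k := by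
      apply Finset.sum_congr rfl
      intro q _
      apply Finset.sum_congr rfl
      intro k0 _
      rw [Finset.sum_comm]
    rw [e1]
    refine (Finset.sum_le_sum fun q hq => Finset.sum_le_sum fun k0 hk0 =>
      Finset.sum_le_sum fun k hk => hsl q hq k0 hk0 k hk).trans ?_
    simp only [Finset.sum_const, nsmul_eq_mul, hcard, hpi, Nat.card_Icc]
    apply le_of_eq
    push_cast
    ring
  · -- slices in the direction of `1`
    push Not at hr
    have hsl : ∀ q ∈ Finset.Icc 1 H, ∀ k1 ∈ I, ∀ k ∈ X, ∑ k0 ∈ I, G q k0 k1 k ≤ B := by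
      intro q hq k1 _ k _
      have hq0 : (q : ℂ) ≠ 0 := by
        have := (Finset.mem_Icc.mp hq).1
        have : q ≠ 0 := by omega
        exact_mod_cast this
      have h1 := line_count hexp hru hγ hγ0 hinj v v0 (1 / q)
        (isAlgebraic_one.mul (isAlgebraic_natCast q).inv)
        (div_ne_zero one_ne_zero hq0) j hj (by
          intro r hr'
          apply hr (r * q)
          push_cast
          field_simp at hr'
          linear_combination hr') ((k1 * θ + ∑ i, k i * η i) / q) (-H : ℤ) (2 * H + 1) (by omega)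
      rw [← hIcc, hBc, Finset.card_filter, Nat.cast_sum] at h1
      refine le_trans (le_of_eq ?_) h1
      apply Finset.sum_congr rfl
      intro k0 _
      rw [hG]
      simp only
      have : ((k0 : ℂ) + k1 * θ + ∑ i, k i * η i) / q =
          (k1 * θ + ∑ i, k i * η i) / q + k0 * (1 / q) := by ring
      rw [this]
      split_ifs <;> simp
    have e1 : ∑ q ∈ Finset.Icc 1 H, ∑ k0 ∈ I, ∑ k1 ∈ I, ∑ k ∈ X, G q k0 k1 k =
        ∑ q ∈ Finset.Icc 1 H, ∑ k1 ∈ I, ∑ k ∈ X, ∑ k0 ∈ I, G q k0 k1 k := by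
      apply Finset.sum_congr rfl
      intro q _
      rw [Finset.sum_comm]
      apply Finset.sum_congr rfl
      intro k1 _
      rw [Finset.sum_comm]
    rw [e1]
    refine (Finset.sum_le_sum fun q hq => Finset.sum_le_sum fun k0 hk0 =>
      Finset.sum_le_sum fun k hk => hsl q hq k0 hk0 k hk).trans ?_
    simp only [Finset.sum_const, nsmul_eq_mul, hcard, hpi, Nat.card_Icc]
    apply le_of_eq
    push_cast
    ring

end Pool.Agent.L5helper57.TW
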