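import Pool.Agent.L5helper57.TW.Grp

/-!
# Towers `b ^ (a ^ β)` with `β` in a finitely generated group of algebraic numbers
-/

set_option autoImplicit false

namespace Pool.Agent.L5helper57.TW

open Pool.Agent.H301R2.SSE Pool.Agent.H137R5.Tow Pool.Agent.TH681.TW

/-- Gelfond–Schneider, complex case -/
theorem gs_cx {l c : ℂ} (hl0 : l ≠ 0) (hexp : IsAlgebraic ℚ (Complex.exp l))
    (hc : IsAlgebraic ℚ c) (hci : ∀ r : ℚ, c ≠ r) : Transcendental ℚ (Complex.exp (l * c)) := by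
  intro h
  have hli : LinearIndependent ℚ ![l, l * c] := by
    rw [LinearIndependent.pair_iff]
    intro s t hst
    have h1 : ((s : ℂ) + t * c) * l = 0 := by
      rw [← hst, Rat.smul_def, Rat.smul_def]; ring
    have h2 : (s : ℂ) + t * c = 0 := by
      rcases mul_eq_zero.mp h1 with h2 | h2
      · exact h2
      · exact absurd h2 hl0
    by_cases ht : t = 0
    · subst ht
      refine ⟨?_, rfl⟩
      simpa using h2
    · exfalso
      apply hci (-s / t)
      have ht' : (t : ℂ) ≠ 0 := by exact_mod_cast ht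
      push_cast
      field_simp
      linear_combination h2
  have := Pool.Agent.H297R2.baker_inhom ![l, l * c] (by
    intro i
    fin_cases i
    · exact hexp
    · exact h) hli 0 isAlgebraic_zero ![c, -1] (by
    intro i
    fin_cases i
    · exact hc
    · exact isAlgebraic_one.neg) (by
    rw [Fin.sum_univ_two]
    simp only [Matrix.cons_val_zero, Matrix.cons_val_one]
    ring)
  have := this.2 1
  simp at this

theorem rat_cx {l : ℂ} (hexp : IsAlgebraic ℚ (Complex.exp l)) (r : ℚ) :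
    IsAlgebraic ℚ (Complex.exp (l * r)) := by
  apply IsAlgebraic.of_pow (n := r.den) r.den_pos
  have h1 : Complex.exp (l * r) ^ r.den = Complex.exp l ^ r.num := by
    rw [← Complex.exp_nat_mul, ← Complex.exp_int_mul]
    congr 1
    have h2 : (r : ℂ) = (r.num : ℂ) / (r.den : ℂ) := Rat.cast_def r
    have h3 : (r.den : ℂ) ≠ 0 := by exact_mod_cast r.den_nz
    rw [h2]
    field_simp
  rw [h1]
  rcases Int.eq_nat_or_neg r.num with ⟨k, h | h⟩
  · rw [h, zpow_natCast]; exact hexp.pow k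
  · rw [h, zpow_neg, zpow_natCast]; exact (hexp.pow k).inv

variable {n : ℕ}

theorem mon_exp (l : ℂ) (β : Fin n → ℂ) (k : Fin n → ℤ) :
    mon (fun i => Complex.exp (l * β i)) k = Complex.exp (l * ∑ i, (k i : ℂ) * β i) := by
  unfold mon
  rw [Finset.mul_sum, Complex.exp_sum]
  apply Finset.prod_congr rfl
  intro i _
  rw [← Complex.exp_int_mul]
  congr 1
  ring

theorem mon_tr {l : ℂ} (hl0 : l ≠ 0) (hexp : IsAlgebraic ℚ (Complex.exp l)) (β : Fin n → ℂ)
    (hβ : ∀ i, IsAlgebraic ℚ (β i)) (hind : ∀ k : Fin n → ℤ, k ≠ 0 → ∀ q : ℚ,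
      ∑ i, (k i : ℂ) * β i ≠ q) (k : Fin n → ℤ) (hk : k ≠ 0) :
    Transcendental ℚ (mon (fun i => Complex.exp (l * β i)) k) := by
  rw [mon_exp]
  refine gs_cx hl0 hexp ?_ (hind k hk)
  have : ∀ s : Finset (Fin n), IsAlgebraic ℚ (∑ i ∈ s, (k i : ℂ) * β i) := by
    intro s
    induction s using Finset.induction_on with
    | empty => rw [Finset.sum_empty]; exact isAlgebraic_zero
    | insert a s ha ih =>
      rw [Finset.sum_insert ha]
      exact ((isAlgebraic_intCast _).mul (hβ a)).add ih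
  exact this _

theorem shift_mem {l v x : ℂ} (hexp : IsAlgebraic ℚ (Complex.exp l)) (q : ℚ) :
    v * Complex.exp (l * (q + x)) ∈ Lt ↔ v * Complex.exp (l * x) ∈ Lt := by
  have h1 : v * Complex.exp (l * (q + x)) = Complex.exp (l * q) * (v * Complex.exp (l * x)) := by
    rw [mul_add, Complex.exp_add]; ring
  rw [h1]
  constructor
  · intro h
    have h2 := Lt_mul (rat_cx hexp q).inv h
    rwa [← mul_assoc, inv_mul_cancel₀ (Complex.exp_ne_zero _), one_mul] at h2
  · exact Lt_mul (rat_cx hexp q)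

open Classical Pointwise in
/-- towers, complex version -/
theorem count_tow {l v : ℂ} (hl0 : l ≠ 0) (hexp : IsAlgebraic ℚ (Complex.exp l)) (hv : v ≠ 0)
    (β : Fin n → ℂ) (hβ : ∀ i, IsAlgebraic ℚ (β i)) (hind : ∀ k : Fin n → ℤ, k ≠ 0 → ∀ q : ℚ,
      ∑ i, (k i : ℂ) * β i ≠ q) (ρ : (Fin n → ℤ) → ℚ) (X : Finset (Fin n → ℤ)) :
    ((X.filter fun k => v * Complex.exp (l * (ρ k + ∑ i, (k i : ℂ) * β i)) ∈ Lt).card : ℝ) ≤
      Real.sqrt ((n + 1) * ((X - X).card : ℝ)) + 1 := by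
  have h1 := count_mon (z := fun i => Complex.exp (l * β i)) (fun i => Complex.exp_ne_zero _)
    (mon_tr hl0 hexp β hβ hind) hv X
  simp only [mon_exp] at h1
  simp only [shift_mem hexp]
  exact h1

open Classical in
/-- pairs of exceptions with a given difference -/
theorem pairs_tow {l v : ℂ} (hl0 : l ≠ 0) (hexp : IsAlgebraic ℚ (Complex.exp l)) (hv : v ≠ 0)
    (β : Fin n → ℂ) (hβ : ∀ i, IsAlgebraic ℚ (β i)) (hind : ∀ k : Fin n → ℤ, k ≠ 0 → ∀ q : ℚ,
      ∑ i, (k i : ℂ) * β i ≠ q) (ρ : (Fin n → ℤ) → ℚ) (X : Finset (Fin n → ℤ))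
    (r : Fin n → ℤ) (hr : r ≠ 0) :
    (X.filter fun k => v * Complex.exp (l * (ρ k + ∑ i, (k i : ℂ) * β i)) ∈ Lt ∧
      v * Complex.exp (l * (ρ (k + r) + ∑ i, ((k + r) i : ℂ) * β i)) ∈ Lt).card ≤ n + 1 := by
  simp only [shift_mem hexp, ← mon_exp]
  refine diff_le (z := fun i => Complex.exp (l * β i)) (fun i => Complex.exp_ne_zero _)
    (mon_tr hl0 hexp β hβ hind) hv r hr _ ?_ ?_
  · intro k hk
    exact (Finset.mem_filter.mp hk).2.1
  · intro k hk
    exact (Finset.mem_filter.mp hk).2.2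

/-- the box `∏ [A_i, A_i + N)` -/
noncomputable def box (A : Fin n → ℤ) (N : ℕ) : Finset (Fin n → ℤ) :=
  Fintype.piFinset fun i => Finset.Ico (A i) (A i + N)

open Classical Pointwise in
theorem box_sub (A : Fin n → ℤ) (N : ℕ) : (box A N - box A N).card ≤ (2 * N) ^ n := by
  have h1 : box A N - box A N ⊆ Fintype.piFinset fun _ : Fin n => Finset.Ico (-(N : ℤ)) (N : ℤ) := by
    intro r hr
    obtain ⟨x, hx, y, hy, rfl⟩ := Finset.mem_sub.mp hr
    unfold box at hx hy
    rw [Fintype.mem_piFinset] at hx hy ⊢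
    intro i
    have := Finset.mem_Ico.mp (hx i)
    have := Finset.mem_Ico.mp (hy i)
    rw [Finset.mem_Ico, Pi.sub_apply]
    omega
  refine (Finset.card_le_card h1).trans ?_
  rw [Fintype.card_piFinset, Finset.prod_const, Int.card_Ico, Finset.card_univ, Fintype.card_fin]
  apply Nat.pow_le_pow_left
  omega

open Classical Pointwise in
theorem count_box {l v : ℂ} (hl0 : l ≠ 0) (hexp : IsAlgebraic ℚ (Complex.exp l)) (hv : v ≠ 0)
    (β : Fin n → ℂ) (hβ : ∀ i, IsAlgebraic ℚ (β i)) (hind : ∀ k : Fin n → ℤ, k ≠ 0 → ∀ q : ℚ,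
      ∑ i, (k i : ℂ) * β i ≠ q) (ρ : (Fin n → ℤ) → ℚ) (A : Fin n → ℤ) (N : ℕ) :
    (((box A N).filter fun k =>
      v * Complex.exp (l * (ρ k + ∑ i, (k i : ℂ) * β i)) ∈ Lt).card : ℝ) ≤
      Real.sqrt ((n + 1) * (2 * N) ^ n) + 1 := by
  refine (count_tow hl0 hexp hv β hβ hind ρ (box A N)).trans ?_
  have h1 : (((box A N - box A N).card : ℕ) : ℝ) ≤ (2 * N) ^ n := by
    exact_mod_cast box_sub A N
  gcongr

/-- for real numbers -/
theorem bad_tow {a b x : ℝ} (ha : 0 < a) (hb : 0 < b) (h : Bad (b ^ (a ^ x))) :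
    ((Real.log b : ℝ) : ℂ) * Complex.exp (((Real.log a : ℝ) : ℂ) * (x : ℂ)) ∈ Lt := by
  have h1 := bad_rpow hb h
  rw [Real.rpow_def_of_pos ha] at h1
  push_cast at h1 ⊢
  rw [mul_comm]
  exact h1

end Pool.Agent.L5helper57.TW
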